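import Mathlib
import Pool.Agent.Helper43.Gx.Goals2

/-!
Packet Y4 (MP_d3128a_ag): long strips, exact total.
-/

set_option autoImplicit false

namespace Pool.Agent.Helper43.Gx.PkY4

open Finset Pool.Agent.Lead.Sh
open Pool.Agent.Helper43.Gm (st mv nn SS Run Pri)
open Pool.Agent.Helper43.Gm.PkE (KK ek ex)
open Helper18.Cusp (Concl GoodFor)
open Helper18.Np (fm)

/-- the length of the row `b` of `TD R t` -/
def Lr (R t b : ℕ) : ℕ := (t + b) / R + 1 - b

theorem mem_TD {R t : ℕ} (hR : 1 ≤ R) (d : ℕ × ℕ) : d ∈ TD R t ↔ d.2 < R ∧ d.1 < Lr R t d.2 := by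
  obtain ⟨a, b⟩ := d
  have key : b < R → (R * a + (R - 1) * b ≤ t ↔ a < Lr R t b) := by
    intro _
    have h1 : (R - 1) * b + b = R * b := by
      obtain ⟨r, rfl⟩ : ∃ r, R = r + 1 := ⟨R - 1, by omega⟩
      rw [Nat.add_sub_cancel]
      ring
    have h2 : R * a + (R - 1) * b ≤ t ↔ R * (a + b) ≤ t + b := by
      rw [mul_add, ← h1]
      omega
    have h3 : R * (a + b) ≤ t + b ↔ a + b ≤ (t + b) / R := by
      rw [Nat.le_div_iff_mul_le (by omega), mul_comm R]
    rw [h2, h3]
    unfold Lr
    omega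
  unfold TD
  rw [mem_filter, mem_product, mem_range, mem_range]
  simp only
  constructor
  · rintro ⟨⟨h1, h2⟩, h3⟩
    exact ⟨h2, (key h2).1 h3⟩
  · rintro ⟨h1, h2⟩
    have h3 := (key h1).2 h2
    refine ⟨⟨?_, h1⟩, h3⟩
    have : a ≤ R * a := Nat.le_mul_of_pos_left a (by omega)
    have h4 : 0 ≤ (R - 1) * b := Nat.zero_le _
    omega

theorem card_TD {R t : ℕ} (hR : 1 ≤ R) : (TD R t).card = ∑ b ∈ range R, Lr R t b := by
  have h : TD R t = (range R).biUnion (fun b => (range (Lr R t b)).image (fun a => (a, b))) := by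
    ext d
    rw [mem_TD hR, mem_biUnion]
    constructor
    · rintro ⟨h1, h2⟩
      refine ⟨d.2, mem_range.2 h1, ?_⟩
      rw [mem_image]
      exact ⟨d.1, mem_range.2 h2, rfl⟩
    · rintro ⟨b, hb, hd⟩
      rw [mem_image] at hd
      obtain ⟨a, ha, rfl⟩ := hd
      exact ⟨mem_range.1 hb, mem_range.1 ha⟩
  rw [h, card_biUnion]
  · apply sum_congr rfl
    intro b _
    rw [card_image_of_injective _ (fun a a' h => (Prod.mk.inj h).1), card_range]
  · intro b _ b' _ hbb
    rw [Function.onFun, disjoint_left]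
    intro d hd hd'
    rw [mem_image] at hd hd'
    obtain ⟨a, _, rfl⟩ := hd
    obtain ⟨a', _, h⟩ := hd'
    exact hbb (Prod.mk.inj h).2.symm

/-- Hermite's identity -/
theorem hermite {R : ℕ} (hR : 1 ≤ R) (t : ℕ) : ∑ b ∈ range R, (t + b) / R = t := by
  induction t with
  | zero =>
    apply sum_eq_zero
    intro b hb
    rw [Nat.zero_add]
    exact Nat.div_eq_of_lt (mem_range.1 hb)
  | succ t ih =>
    have h1 : ∑ b ∈ range R, (t + 1 + b) / R = ∑ b ∈ range R, (t + (b + 1)) / R := by
      apply sum_congr rfl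
      intro b _
      rw [show t + 1 + b = t + (b + 1) by ring]
    have h2 := sum_range_succ (fun b => (t + b) / R) R
    have h3 := sum_range_succ' (fun b => (t + b) / R) R
    have h4 : (t + R) / R = t / R + 1 := Nat.add_div_right t (by omega)
    simp only [Nat.add_zero] at h3
    rw [h1]
    omega

theorem div_ge {R t b : ℕ} (ht : (R - 1) * (R - 1) ≤ t) (hb : b < R) : b ≤ (t + b) / R := by
  rw [Nat.le_div_iff_mul_le (by omega)]
  have h1 : (R - 1) * b ≤ (R - 1) * (R - 1) := Nat.mul_le_mul_left _ (by omega)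
  have h2 : b * R = (R - 1) * b + b := by
    obtain ⟨r, rfl⟩ : ∃ r, R = r + 1 := ⟨R - 1, by omega⟩
    rw [Nat.add_sub_cancel]
    ring
  omega

theorem card_le {R t : ℕ} (hR : 1 ≤ R) : (TD R t).card ≤ t + R := by
  rw [card_TD hR]
  have h1 : ∑ b ∈ range R, Lr R t b ≤ ∑ b ∈ range R, ((t + b) / R + 1) := by
    apply sum_le_sum
    intro b _
    exact Nat.sub_le _ _
  rw [sum_add_distrib, hermite hR, sum_const, card_range, smul_eq_mul, mul_one] at h1
  exact h1

theorem card_formula {R t : ℕ} (hR : 1 ≤ R) (ht : (R - 1) * (R - 1) ≤ t) :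
    (TD R t).card + ∑ b ∈ range R, b = t + R := by
  rw [card_TD hR, ← sum_add_distrib]
  have h1 : ∑ b ∈ range R, (Lr R t b + b) = ∑ b ∈ range R, ((t + b) / R + 1) := by
    apply sum_congr rfl
    intro b hb
    have := div_ge ht (mem_range.1 hb)
    unfold Lr
    omega
  rw [h1, sum_add_distrib, hermite hR, sum_const, card_range, smul_eq_mul, mul_one]

theorem div_add_bounds (a T R : ℕ) (hR : 1 ≤ R) :
    a / R + T / R ≤ (a + T) / R ∧ (a + T) / R ≤ a / R + T / R + 1 := by
  refine ⟨Nat.add_div_le_add_div a T R, ?_⟩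
  rw [Nat.add_div (by omega)]
  split_ifs <;> omega

/-- one wide class fills a strip -/
theorem strip (hY3 : GoalY3) {R t T i : ℕ} {mm : ℕ → ℕ} {A : Finset ℕ} (hi : 1 ≤ i)
    (hiR : 2 * i + 1 ≤ R) (ht : (R - 1) * (R - 1) ≤ t) (hT : 28 * i ^ 2 * R ≤ T)
    (hA : ∀ k ∈ A, mm k = i) (hAT : ∑ k ∈ A, (mm k + 1).choose 2 = T) :
    Inj (TD R (t + T) \ TD R t) (rows mm A) := by
  have hR : 1 ≤ R := by omega
  have hq : 28 * i ^ 2 ≤ T / R := by
    rw [Nat.le_div_iff_mul_le (by omega)]
    exact hT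
  have hi2 : i ≤ i ^ 2 := Nat.le_self_pow (by norm_num) i
  obtain ⟨f, hf⟩ : ∃ f : ℕ → ℕ, ∀ b, f b = (t + T + b) / R - (t + b) / R := ⟨_, fun _ => rfl⟩
  have hfb : ∀ b, T / R ≤ f b ∧ f b ≤ T / R + 1 ∧ f b + (t + b) / R = (t + T + b) / R := by
    intro b
    have h1 := div_add_bounds (t + b) T R hR
    rw [show t + b + T = t + T + b by ring] at h1
    rw [hf]
    omega
  have hsum : ∑ b ∈ range R, f b = T := by
    have h1 : ∑ b ∈ range R, f b + ∑ b ∈ range R, (t + b) / R =
        ∑ b ∈ range R, (t + T + b) / R := by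
      rw [← sum_add_distrib]
      exact sum_congr rfl fun b _ => (hfb b).2.2
    rw [hermite hR, hermite hR] at h1
    omega
  have key := hY3 i i 2 R f (fun b => Lr R t b) mm ∅ ∅ A (TD R (t + T) \ TD R t) hi le_rfl hiR
    (by
      intro d hd
      rw [mem_sdiff, mem_TD hR, mem_TD hR] at hd
      obtain ⟨⟨h1, h2⟩, h3⟩ := hd
      refine ⟨h1, ?_, ?_⟩
      · by_contra h
        exact h3 ⟨h1, by omega⟩
      · have h4 := div_ge ht h1
        have h5 := (hfb d.2).2.2
        have h6 : fm mm ∅ d.2 = 0 := by unfold fm; exact sum_empty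
        rw [h6]
        unfold Lr at h2 ⊢
        omega)
    (disjoint_empty_left _) (disjoint_empty_left _) (fun k hk => absurd hk (notMem_empty k)) hA
    (by
      refine ⟨fun y _ => ?_, fun y _ => ?_⟩
      · have h1 := hfb y
        have h2 := hfb (y + 1)
        omega
      · right; right
        have h1 := hfb y
        omega)
    (by
      refine ⟨fun y _ _ => ?_, fun y _ _ => ?_⟩
      · have h1 := hfb y
        omega
      · have h1 := hfb y
        have h2 := hfb (y + 1)
        have h3 := hfb (y + 2)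
        omega)
    (by
      left
      rw [sum_empty]
      have h1 := hfb 0
      omega)
    (by rw [empty_union, hAT, hsum])
  rw [empty_union, empty_union] at key
  exact key

theorem two_choose (n : ℕ) : 2 * (n + 1).choose 2 = n * (n + 1) := by
  induction n with
  | zero => rfl
  | succ n ih =>
    rw [Nat.choose_succ_succ' (n + 1) 1, mul_add, ih, Nat.choose_one_right]
    ring

theorem Lr_le {R t y y0 : ℕ} (hy : y < R) (hy0 : y0 < R) : Lr R t y ≤ Lr R t y0 + (R - 1) := by
  have h1 : t / R ≤ (t + y0) / R := Nat.div_le_div_right (by omega)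
  have h2 : (t + y) / R ≤ (t + R) / R := Nat.div_le_div_right (by omega)
  rw [Nat.add_div_right t (by omega)] at h2
  have h3 : (t + y) / R ≤ t / R + y := by
    rcases Nat.eq_zero_or_pos y with hy0' | hpos
    · rw [hy0', Nat.add_zero, Nat.add_zero]
    · exact h2.trans (Nat.add_le_add_left hpos _)
  unfold Lr
  generalize (t + y) / R = u at h3 ⊢
  generalize (t + y0) / R = v at h1 ⊢
  generalize t / R = w at h1 h3
  omega

theorem fm_anti (mm : ℕ → ℕ) (K : Finset ℕ) {y y' : ℕ} (h : y ≤ y') : fm mm K y' ≤ fm mm K y := by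
  unfold fm
  exact sum_le_sum fun k _ => by omega

theorem fm_convex (mm : ℕ → ℕ) (K : Finset ℕ) (y : ℕ) :
    2 * fm mm K (y + 1) ≤ fm mm K y + fm mm K (y + 2) := by
  unfold fm
  rw [mul_sum, ← sum_add_distrib]
  exact sum_le_sum fun k _ => by omega

/-- the case without wide classes -/
theorem base (hY3 : GoalY3) {M μ R t : ℕ} {K s : Finset ℕ} {mm : ℕ → ℕ} (hμ : 1 ≤ μ) (hμM : μ ≤ M)
    (hMR : 2 * M + 1 ≤ R) (hKs : Disjoint K s) (hfm : fm mm K 0 ≤ 4 * R)
    (hs : ∀ k ∈ s, 1 ≤ mm k ∧ mm k ≤ M)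
    (htot : ∑ y ∈ range R, fm mm K y + ∑ k ∈ s, (mm k + 1).choose 2 = (TD R t).card)
    (hbig : R * (393 * M ^ 3 + 6 * R) ≤
      ∑ k ∈ s.filter (fun k => mm k = μ), (mm k + 1).choose 2)
    (hno : ∀ i, 1 ≤ i → i ≤ M → i ≠ μ →
      ∑ k ∈ s.filter (fun k => mm k = i), (mm k + 1).choose 2 < 28 * i ^ 2 * R) :
    Inj (TD R t) (rows mm (K ∪ s)) := by
  have hM : 1 ≤ M := by omega
  have hR : 1 ≤ R := by omega
  have hM3 : M ≤ M ^ 3 := Nat.le_self_pow (by norm_num) M
  have hM23 : M ^ 2 ≤ M ^ 3 := Nat.pow_le_pow_right hM (by norm_num)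
  obtain ⟨X, hX⟩ : ∃ X, X = 393 * M ^ 3 := ⟨_, rfl⟩
  have hsub : ∑ k ∈ s.filter (fun k => mm k = μ), (mm k + 1).choose 2 ≤
      ∑ k ∈ s, (mm k + 1).choose 2 := sum_le_sum_of_subset (filter_subset _ _)
  have hcard : R * (X + 6 * R) ≤ (TD R t).card := by
    rw [hX]
    omega
  have ht : (R - 1) * (R - 1) ≤ t := by
    have h1 := card_le (t := t) hR
    have h2 : R * (X + 6 * R) = R * X + 6 * (R * R) := by ring
    have h3 : (R - 1) * (R - 1) ≤ R * R := Nat.mul_le_mul (by omega) (by omega)
    have h4 : R ≤ R * R := Nat.le_mul_self R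
    have h5 : 0 ≤ R * X := Nat.zero_le _
    omega
  -- true subtraction
  have hlen : ∀ y < R, fm mm K y + (X + R) ≤ Lr R t y := by
    intro y0 hy0
    by_contra hc
    push Not at hc
    have h1 : ∀ y ∈ range R, Lr R t y + 1 ≤ X + 6 * R := by
      intro y hy
      have h2 := Lr_le (t := t) (mem_range.1 hy) hy0
      have h3 := fm_anti mm K (Nat.zero_le y0)
      omega
    have h2 := sum_le_sum h1
    rw [sum_add_distrib, sum_const, sum_const, card_range, smul_eq_mul, smul_eq_mul, mul_one,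
      ← card_TD hR] at h2
    omega
  obtain ⟨ℓ, hℓ⟩ : ∃ ℓ : ℕ → ℕ, ∀ y, ℓ y = Lr R t y - fm mm K y := ⟨_, fun _ => rfl⟩
  have hℓ1 : ∀ y < R, ℓ y + fm mm K y = Lr R t y ∧ X + R ≤ ℓ y := by
    intro y hy
    have h1 := hlen y hy
    rw [hℓ]
    omega
  obtain ⟨q, hq⟩ : ∃ q : ℕ → ℕ, ∀ y, q y = (t + y) / R := ⟨_, fun _ => rfl⟩
  have hLr : ∀ y, y < R → Lr R t y + y = q y + 1 := by
    intro y hy
    have := div_ge ht hy
    unfold Lr
    rw [← hq] at this ⊢
    omega
  have hdiv : ∀ y, q y ≤ q (y + 1) ∧ q (y + 1) ≤ q y + 1 := by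
    intro y
    rw [hq, hq]
    have h1 := div_add_bounds (t + y) 1 R hR
    have h2 : 1 / R = 0 := Nat.div_eq_of_lt (by omega)
    rw [h2] at h1
    rw [← Nat.add_assoc t y 1]
    omega
  obtain ⟨O, hO⟩ : ∃ O, O = s.filter (fun k => mm k ≠ μ) := ⟨_, rfl⟩
  obtain ⟨A, hA⟩ : ∃ A, A = s.filter (fun k => mm k = μ) := ⟨_, rfl⟩
  have hOA : O ∪ A = s := by
    rw [hO, hA]
    ext k
    rw [mem_union, mem_filter, mem_filter]
    tauto
  have hOAd : Disjoint O A := by
    rw [hO, hA, disjoint_left]
    intro k hk hk'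
    rw [mem_filter] at hk hk'
    exact hk.2 hk'.2
  have hOs : ∀ k ∈ O, k ∈ s ∧ mm k ≠ μ := by
    intro k hk
    rw [hO, mem_filter] at hk
    exact hk
  have hmaps : ∀ k ∈ O, mm k ∈ Icc 1 M := by
    intro k hk
    rw [mem_Icc]
    exact hs k (hOs k hk).1
  have hfib : ∀ i ∈ Icc 1 M, ∑ k ∈ O.filter (fun k => mm k = i), (mm k + 1).choose 2 ≤
      28 * i ^ 2 * R := by
    intro i hi
    rw [mem_Icc] at hi
    by_cases hiμ : i = μ
    · have : O.filter (fun k => mm k = i) = ∅ := by
        rw [filter_eq_empty_iff]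
        intro k hk h
        exact (hOs k hk).2 (h.trans hiμ)
      rw [this, sum_empty]
      exact Nat.zero_le _
    · refine le_trans (sum_le_sum_of_subset ?_) (hno i hi.1 hi.2 hiμ).le
      intro k hk
      rw [mem_filter] at hk ⊢
      exact ⟨(hOs k hk.1).1, hk.2⟩
  have hOc : ∑ k ∈ O, (mm k + 1).choose 2 ≤ 28 * M ^ 3 * R := by
    rw [← sum_fiberwise_of_maps_to hmaps]
    refine (sum_le_sum (g := fun _ => 28 * M ^ 2 * R) fun i hi => (hfib i hi).trans ?_).trans ?_
    · rw [mem_Icc] at hi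
      gcongr
      exact hi.2
    · rw [sum_const, Nat.card_Icc, smul_eq_mul, Nat.add_sub_cancel]
      exact le_of_eq (by ring)
  have hOm : ∑ k ∈ O, mm k ≤ 56 * M ^ 2 * R := by
    rw [← sum_fiberwise_of_maps_to hmaps]
    refine (sum_le_sum (g := fun _ => 56 * M * R) fun i hi => ?_).trans ?_
    · have h1 := hfib i hi
      rw [mem_Icc] at hi
      have h2 : (∑ k ∈ O.filter (fun k => mm k = i), mm k) * (i + 1) =
          2 * ∑ k ∈ O.filter (fun k => mm k = i), (mm k + 1).choose 2 := by
        rw [sum_mul, mul_sum]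
        refine sum_congr rfl fun k hk => ?_
        rw [two_choose, (mem_filter.1 hk).2]
      by_contra hc
      push Not at hc
      have h3 : 56 * i * R * (i + 1) ≤ 56 * M * R * (i + 1) := by gcongr; exact hi.2
      have h4 : 56 * M * R * (i + 1) < (∑ k ∈ O.filter (fun k => mm k = i), mm k) * (i + 1) :=
        Nat.mul_lt_mul_of_pos_right hc (by omega)
      have h5 : 56 * i * R * (i + 1) = 2 * (28 * i ^ 2 * R) + 56 * i * R := by ring
      omega
    · rw [sum_const, Nat.card_Icc, smul_eq_mul, Nat.add_sub_cancel]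
      exact le_of_eq (by ring)
  have hfib2 : ∑ k ∈ O ∪ A, (mm k + 1).choose 2 = ∑ y ∈ range R, ℓ y := by
    rw [hOA]
    have h1 : ∑ y ∈ range R, ℓ y + ∑ y ∈ range R, fm mm K y = (TD R t).card := by
      rw [card_TD hR, ← sum_add_distrib]
      exact sum_congr rfl fun y hy => (hℓ1 y (mem_range.1 hy)).1
    omega
  have key := hY3 M μ 1 R ℓ (fun _ => 0) mm K O A (TD R t) hμ hμM hMR
    (by
      intro d hd
      rw [mem_TD hR] at hd
      refine ⟨hd.1, Nat.zero_le _, ?_⟩
      have := (hℓ1 d.2 hd.1).1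
      omega)
    (by rw [hOA]; exact hKs) hOAd (fun k hk => hs k (hOs k hk).1)
    (fun k hk => by rw [hA, mem_filter] at hk; exact hk.2)
    (by
      refine ⟨fun y hy => ?_, fun y hy => ?_⟩
      · have h1 := hℓ1 y (by omega)
        have h2 := hℓ1 (y + 1) hy
        have h3 := hLr y (by omega)
        have h4 := hLr (y + 1) hy
        have h5 := hdiv y
        have h6 : fm mm K (y + 1) ≤ fm mm K y := fm_anti mm K (Nat.le_succ y)
        omega
      · right; right
        have h1 := hℓ1 y (by omega)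
        omega)
    (by
      refine ⟨fun y hy _ => ?_, fun y _ hy => ?_⟩
      · have h1 := hℓ1 y hy
        omega
      · have h1 := hℓ1 y (by omega)
        have h2 := hℓ1 (y + 1) (by omega)
        have h3 := hℓ1 (y + 2) hy
        have h4 := hLr y (by omega)
        have h5 := hLr (y + 1) (by omega)
        have h6 := hLr (y + 2) hy
        have h7 := hdiv y
        have h8 := hdiv (y + 1)
        have h9 := fm_convex mm K y
        have h10 : y + 1 + 1 = y + 2 := rfl
        rw [h10] at h8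
        omega)
    (by
      rcases Nat.lt_or_ge R (6 * M + 2) with hlt | hge
      · left
        have h1 := (hℓ1 0 (by omega)).2
        have h2 : 56 * M ^ 2 * R ≤ 56 * M ^ 2 * (7 * M) := Nat.mul_le_mul_left _ (by omega)
        have h3 : 56 * M ^ 2 * (7 * M) = 392 * M ^ 3 := by ring
        omega
      · right
        have h1 : ∑ y ∈ range (R - (3 * M + 1)), X ≤ ∑ y ∈ range (R - (3 * M + 1)), ℓ y := by
          refine sum_le_sum fun y hy => ?_
          have := hℓ1 y (by have := mem_range.1 hy; omega)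
          omega
        rw [sum_const, card_range, smul_eq_mul] at h1
        have h2 : R * X ≤ 2 * (R - (3 * M + 1)) * X := Nat.mul_le_mul_right _ (by omega)
        have h3 : 2 * (R - (3 * M + 1)) * X = 2 * ((R - (3 * M + 1)) * X) := by ring
        have h4 : R * X = 14 * (28 * M ^ 3 * R) + M ^ 3 * R := by rw [hX]; ring
        omega)
    hfib2
  rw [hOA] at key
  exact key

theorem goalY4 (hY3 : GoalY3) : GoalY4 := by
  intro M μ R t K s mm hμ hμM hMR hKs hfm hs htot hbig
  obtain ⟨n, hn⟩ : ∃ n, n = s.card := ⟨_, rfl⟩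
  induction n using Nat.strong_induction_on generalizing s t with
  | _ n ih =>
    have hM : 1 ≤ M := by omega
    have hR : 1 ≤ R := by omega
    by_cases hex : ∃ i, 1 ≤ i ∧ i ≤ M ∧ i ≠ μ ∧
        28 * i ^ 2 * R ≤ ∑ k ∈ s.filter (fun k => mm k = i), (mm k + 1).choose 2
    · obtain ⟨i, hi1, hiM, hiμ, hiT⟩ := hex
      obtain ⟨A, hA⟩ : ∃ A, A = s.filter (fun k => mm k = i) := ⟨_, rfl⟩
      obtain ⟨s', hs'⟩ : ∃ s', s' = s.filter (fun k => mm k ≠ i) := ⟨_, rfl⟩
      obtain ⟨T, hT⟩ : ∃ T, T = ∑ k ∈ A, (mm k + 1).choose 2 := ⟨_, rfl⟩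
      rw [← hA, ← hT] at hiT
      have hdisj : Disjoint s' A := by
        rw [hA, hs', disjoint_left]
        intro k hk hk'
        rw [mem_filter] at hk hk'
        exact hk.2 hk'.2
      have hun : s' ∪ A = s := by
        rw [hA, hs']
        ext k
        rw [mem_union, mem_filter, mem_filter]
        tauto
      have hsplit : ∑ k ∈ s', (mm k + 1).choose 2 + T = ∑ k ∈ s, (mm k + 1).choose 2 := by
        rw [hT, ← sum_union hdisj, hun]
      have hfil : s'.filter (fun k => mm k = μ) = s.filter (fun k => mm k = μ) := by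
        rw [hs']
        ext k
        rw [mem_filter, mem_filter, mem_filter]
        constructor
        · rintro ⟨⟨h1, _⟩, h2⟩
          exact ⟨h1, h2⟩
        · rintro ⟨h1, h2⟩
          exact ⟨⟨h1, fun h => hiμ (h.symm.trans h2)⟩, h2⟩
      have hsub : ∑ k ∈ s.filter (fun k => mm k = μ), (mm k + 1).choose 2 ≤
          ∑ k ∈ s', (mm k + 1).choose 2 := by
        rw [← hfil]
        exact sum_le_sum_of_subset (filter_subset _ _)
      have hApos : 1 ≤ T := by
        have : 1 * 1 ≤ 28 * i ^ 2 * R := Nat.mul_le_mul (by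
          have : 1 ≤ i ^ 2 := Nat.one_le_pow _ _ hi1
          omega) hR
        omega
      have hAne : A.Nonempty := by
        rw [nonempty_iff_ne_empty]
        intro h
        rw [h, sum_empty] at hT
        omega
      have hcard' : s'.card < s.card := by
        have h1 := card_union_of_disjoint hdisj
        rw [hun] at h1
        have h2 := hAne.card_pos
        omega
      -- the smaller strip
      have hle := card_le (t := t) hR
      have h2 : R * (393 * M ^ 3 + 6 * R) = R * (393 * M ^ 3) + 6 * (R * R) := by ring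
      have h3 : (R - 1) * (R - 1) ≤ R * R := Nat.mul_le_mul (by omega) (by omega)
      have h4 : R ≤ R * R := Nat.le_mul_self R
      have h5 : 0 ≤ R * (393 * M ^ 3) := Nat.zero_le _
      obtain ⟨t', ht'⟩ : ∃ t', t = t' + T := ⟨t - T, by omega⟩
      subst ht'
      have htl : (R - 1) * (R - 1) ≤ t' := by omega
      have hc1 := card_formula (t := t') hR htl
      have hc2 := card_formula (t := t' + T) hR (by omega)
      have hI := ih s'.card (by omega) t' s'
        (hKs.mono_right (by rw [← hun]; exact subset_union_left))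
        (fun k hk => hs k (by rw [← hun]; exact mem_union_left _ hk)) (by omega)
        (by rw [hfil]; exact hbig) rfl
      have hSt := strip hY3 (t := t') (T := T) (mm := mm) (A := A) hi1 (by omega) htl hiT
        (fun k hk => by rw [hA, mem_filter] at hk; exact hk.2) hT.symm
      have hG := Inj.glue' (w := (R, R - 1)) (c' := t' + 1) hI hSt (by
        intro d hd
        unfold TD at hd
        rw [mem_filter] at hd
        simp only [wt]
        omega) (by
        intro d hd
        rw [mem_sdiff] at hd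
        by_contra hc
        apply hd.2
        have h6 := hd.1
        unfold TD at h6 ⊢
        rw [mem_filter, mem_product, mem_range, mem_range] at h6 ⊢
        simp only [wt] at hc
        have h7 : d.1 ≤ R * d.1 := Nat.le_mul_of_pos_left _ hR
        have h8 : 0 ≤ (R - 1) * d.2 := Nat.zero_le _
        exact ⟨⟨by omega, h6.1.2⟩, by omega⟩) (by
        apply rows_disj
        rw [disjoint_left]
        intro k hk hk2
        rcases mem_union.1 hk with hk | hk
        · refine (disjoint_left.1 hKs) hk ?_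
          rw [← hun]
          exact mem_union_right _ hk2
        · exact (disjoint_left.1 hdisj) hk hk2)
      rw [← rows_union, union_assoc, hun] at hG
      refine hG.mono ?_ subset_rfl
      intro d hd
      rw [mem_union, mem_sdiff]
      by_cases h : d ∈ TD R t'
      · exact Or.inl h
      · exact Or.inr ⟨hd, h⟩
    · push Not at hex
      exact base hY3 hμ hμM hMR hKs hfm hs htot hbig hex

end Pool.Agent.Helper43.Gx.PkY4
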